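import Pool.Agent.H14.V.FourV
import Pool.Agent.H22.W.Scale

/-!
# V FourW: surfaces with nonpositively curved pseudo-lengths
-/

set_option autoImplicit false

open Topology Filter MvPolynomial Metric

noncomputable section

namespace Pool.Agent.H14.V

open Pool.Agent.H17 (PN VanishesAt HolomorphicInto ZariskiClosedIn puncturedDisc)
open Pool.Agent.H62.FC (Homog)
open Pool.Agent.H17BP (Surface IsForm)
open Pool.Agent.H17LG.Variety (FunField IsLogGeneralType)
open Pool.Agent.H13.SM (conTan cone)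
open Pool.Agent.H36.BP (EN fs wd isCone_transport)
open Pool.Agent.H14.PP (IsCone Chart Form Tan)
open Pool.Agent.H13.OT (OrderTwo)
open Pool.Agent.H14.KB (KobayashiHyperbolicModulo)
open Pool.Agent.H17EF (projVar zariskiClosure coneE LE GT prP prP_injective mk_symm mk_mem_projVar)
open Pool.Agent.H62.EF (MN pr Charts)
open Pool.Agent.H92.TH (SymDiff)
open Pool.Agent.H22.W (PseudoLength SubMean)
open Pool.Agent.H5.BD (BC Equi evp)

variable {N : ℕ}

/-- The length of the derivative of `f` is zero. -/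
def IsNull {X : Set (EN N)} (n : PseudoLength X) (f : ℂ → PN N) : Prop :=
  ∃ F, IsLift F f ∧ ∀ z, n.toFun (F z) (deriv F z) = 0

/-- The pseudo-length is a metric: only the zero tangent vectors have length zero. -/
def IsMetric {X : Set (EN N)} (n : PseudoLength X) : Prop :=
  ∀ x v, Tan X x v → n.toFun x v = 0 → ∃ a : ℂ, v = a • x

variable {X : Set (EN N)}

variable {P : Ideal (MvPolynomial (Fin (N + 1)) ℂ)}

section

variable [P.IsPrime] {z : Fin 2 → FunField P}

/-- **Brody curves and pseudo-lengths.** -/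
theorem partB_w (hP : Homog P) (hz : IsTranscendenceBasis ℂ z)
    (hsm : ∀ y : Fin (N + 1) → ℂ, y ≠ 0 → (∀ Q ∈ P, eval y Q = 0) → Module.finrank ℂ (conTan P y) ≤ 3) (hgt : GT P 2)
    (n : PseudoLength (coneE P)) {L : ℝ} {f : ℂ → PN N} (hf : f ∈ brodyCurves (projVar P) L) :
    IsNull n f ∨ (DoublyPeriodic f ∧ Degenerate P f) := by
  have hS : Surface (cone P) := Pool.Agent.H13.SM.surface_cone hP hz fun y hy => hsm y hy.1 hy.2
  have hX : IsCone (coneE P) := isCone_transport (LE N) hS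
  have hch : Charts (coneE P) := Pool.Agent.H17EF.charts hS
  obtain ⟨hfX, F, hF, hFL⟩ := hf
  have hFX : ∀ z, F z ∈ coneE P := fun z => (hF.mem_iff hP z).1 (hfX z)
  have hconst := Pool.Agent.H22.W.const_brody hX hch n hF.1 hFX hFL
  by_cases hb : n.toFun (F 0) (deriv F 0) = 0
  · exact Or.inl ⟨F, hF, fun z => by rw [hconst z 0, hb]⟩
  · right
    have hb' : 0 < n.toFun (F 0) (deriv F 0) := lt_of_le_of_ne (n.nonneg _ _ (tan_of_curve hF.1 hFX 0)) (Ne.symm hb)
    obtain ⟨c, hc, hlow⟩ := Pool.Agent.H22.W.exists_lower hX hch n hb'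
    exact (partA hP hz hsm hgt hc L).1 f ⟨hfX, F, hF, fun z => ⟨hlow F hF.1 hFX (fun z => hconst z 0) z, hFL z⟩⟩

/-- **Surfaces with pseudo-lengths.** -/
theorem partC_w (hP : Homog P) (hz : IsTranscendenceBasis ℂ z)
    (hsm : ∀ y : Fin (N + 1) → ℂ, y ≠ 0 → (∀ Q ∈ P, eval y Q = 0) → Module.finrank ℂ (conTan P y) ≤ 3)
    (n : PseudoLength (coneE P)) (hNN : ∀ f ∈ brodyCurves (projVar P) 1, IsNull n f → ∀ z w, f z = f w) :
    ∃ c L : ℝ, 0 < c ∧ ∀ f : ℂ → PN N, HolomorphicInto f Set.univ → OrderTwo f → (∀ z, f z ∈ projVar P) →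
      (∃ z w, f z ≠ f w) → ∃ a : ℂ, a ≠ 0 ∧ (fun z => f (a * z)) ∈ boundedDistortion (projVar P) c L := by
  have hS : Surface (cone P) := Pool.Agent.H13.SM.surface_cone hP hz fun y hy => hsm y hy.1 hy.2
  have hX : IsCone (coneE P) := isCone_transport (LE N) hS
  have hch : Charts (coneE P) := Pool.Agent.H17EF.charts hS
  have hNN' : n.NoNullBrody := by
    intro F hF hFX hF1 hθ z w
    have h0 : ∀ z, (F z).ofLp ≠ 0 := fun z => (hFX z).1
    have hl := isLift_mk hF h0
    have h1 := hNN _ ⟨fun z => (hl.mem_iff hP z).2 (hFX z), F, hl, hF1⟩ ⟨F, hl, hθ⟩ z w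
    rw [Projectivization.mk_eq_mk_iff'] at h1
    obtain ⟨a, ha⟩ := h1
    exact ⟨a, WithLp.ofLp_injective 2 ha.symm⟩
  obtain ⟨c, L, hc, hL, h⟩ := Pool.Agent.H22.W.exists_scale hX hch n hNN'
  refine ⟨c, L, hc, fun f hf hfo hfX hfn => ?_⟩
  obtain ⟨F₀, A, hF₀, hFf, hA⟩ := hfo
  obtain ⟨A', hA'⟩ := average_toLp hF₀ (fun z => (hFf z).1) hA
  have hl : IsLift (fun z => (WithLp.toLp 2 (F₀ z) : EN N)) f := by
    refine ⟨?_, fun z => hFf z⟩
    exact (LE N).differentiable.comp hF₀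
  obtain ⟨a, ha, hFa⟩ := h _ hl.1 (fun z => (hl.mem_iff hP z).1 (hfX z)) ⟨A', hA'⟩ (fun h0 => by
    obtain ⟨z, w, hzw⟩ := hfn
    apply hzw
    apply prP_injective
    rw [hl.prP, hl.prP]
    exact pr_const hl.1 (fun z => hl.ne_zero z) h0 z w)
  have hl' : IsLift (fun z => (WithLp.toLp 2 (F₀ (a * z)) : EN N)) fun z => f (a * z) := by
    have := hl.comp a 0
    simpa using this
  exact ⟨a, ha, fun z => hfX _, _, hl', hFa.2.2⟩

/-- curves of length zero are constant, if the pseudo-length is a metric -/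
theorem const_of_metric (hP : Homog P) {n : PseudoLength (coneE P)} (hn : IsMetric n) {f : ℂ → PN N} (hfX : ∀ z, f z ∈ projVar P)
    (hf : IsNull n f) (z w : ℂ) : f z = f w := by
  obtain ⟨F, hF, h0⟩ := hf
  have hFX : ∀ z, F z ∈ coneE P := fun z => (hF.mem_iff hP z).1 (hfX z)
  have h1 : ∀ z, fs (F z) (deriv F z) = 0 := fun z => by
    obtain ⟨a, ha⟩ := hn _ _ (tan_of_curve hF.1 hFX z) (h0 z)
    rw [ha, fs_smul_right]
    have h5 : fs (F z) (F z) = 0 := by
      unfold fs wd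
      rw [inner_self_eq_norm_sq_to_K]
      simp only [norm_pow, norm_algebraMap', norm_norm]
      rw [show ‖F z‖ ^ 2 * ‖F z‖ ^ 2 - (‖F z‖ ^ 2) ^ 2 = 0 by ring, Real.sqrt_zero, zero_div]
    rw [h5, mul_zero]
  apply prP_injective
  rw [hF.prP, hF.prP]
  exact pr_const hF.1 (fun z => hF.ne_zero z) h1 z w

end

end Pool.Agent.H14.V
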