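import Pool.Agent.H14.V.FourW

/-!
# V Concl: finitely many curves, and the four properties
-/

set_option autoImplicit false

open Topology Filter MvPolynomial Metric

noncomputable section

namespace Pool.Agent.H14.V

open Pool.Agent.H17 (PN VanishesAt HolomorphicInto ZariskiClosedIn puncturedDisc)
open Pool.Agent.H62.FC (Homog)
open Pool.Agent.H17LG.Variety (FunField IsLogGeneralType)
open Pool.Agent.H13.SM (conTan)
open Pool.Agent.H13.OT (OrderTwo)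
open Pool.Agent.H14.KB (KobayashiHyperbolicModulo)
open Pool.Agent.H17EF (projVar zariskiClosure coneE GT)

variable {N : ℕ} {P : Ideal (MvPolynomial (Fin (N + 1)) ℂ)} [P.IsPrime] {z : Fin 2 → FunField P}

/-- the conclusion, if all the curves of order two have bounded distortion after a change of the scale -/
theorem conclusion (hP : Homog P) (hz : IsTranscendenceBasis ℂ z)
    (hsm : ∀ y : Fin (N + 1) → ℂ, y ≠ 0 → (∀ Q ∈ P, eval y Q = 0) → Module.finrank ℂ (conTan P y) ≤ 3) (hgt : GT P 2)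
    {c L : ℝ} (hc : 0 < c) (hscale : ∀ f : ℂ → PN N, HolomorphicInto f Set.univ → OrderTwo f → (∀ z, f z ∈ projVar P) →
      (∃ z w, f z ≠ f w) → ∃ a : ℂ, a ≠ 0 ∧ (fun z => f (a * z)) ∈ boundedDistortion (projVar P) c L) :
    ∃ T : Set (ℂ → PN N), T.Finite ∧
      (∀ g ∈ T, HolomorphicInto g Set.univ ∧ (∀ z, g z ∈ projVar P) ∧ (∃ z w, g z ≠ g w) ∧ OrderTwo g ∧
        DoublyPeriodic g ∧ Degenerate P g) ∧
      (∀ f : ℂ → PN N, HolomorphicInto f Set.univ → OrderTwo f → (∀ z, f z ∈ projVar P) → (∃ z w, f z ≠ f w) →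
        ∃ g ∈ T, ∃ a b : ℂ, a ≠ 0 ∧ ∀ z, f z = g (a * z + b)) ∧
      (ZariskiClosedIn (projVar P) (⋃ g ∈ T, zariskiClosure g) ∧ (⋃ g ∈ T, zariskiClosure g) ≠ projVar P) ∧
      (∀ f : ℂ → PN N, HolomorphicInto f Set.univ → (∀ z, f z ∈ projVar P) → (∃ z w, f z ≠ f w) →
        ∀ z, f z ∈ (⋃ g ∈ T, zariskiClosure g)) ∧
      (∀ f : ℂ → PN N, HolomorphicInto f puncturedDisc → (∀ z ∈ puncturedDisc, f z ∈ projVar P) →
        (∃ z ∈ puncturedDisc, f z ∉ (⋃ g ∈ T, zariskiClosure g)) →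
        ∃ g : ℂ → PN N, HolomorphicInto g (Metric.ball 0 1) ∧ ∀ z ∈ puncturedDisc, g z = f z) ∧
      (∀ (Q : Ideal (MvPolynomial (Fin (N + 1)) ℂ)) [Q.IsPrime], Homog Q → P ≤ Q →
        ¬ projVar Q ⊆ (⋃ g ∈ T, zariskiClosure g) →
        ∀ k, 1 ≤ k → (∃ z : Fin k → FunField Q, IsTranscendenceBasis ℂ z) → GT Q k) ∧
      ∃ (Q : MvPolynomial (Fin (N + 1)) ℂ) (D : ℕ), Q.IsHomogeneous D ∧ (∃ x ∈ projVar P, ¬ VanishesAt Q x) ∧
        KobayashiHyperbolicModulo (projVar P) Q D := by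
  obtain ⟨hper, T, hT, hTb, hcl⟩ := partA hP hz hsm hgt hc L
  have hTX : ∀ g ∈ T, ∀ z, g z ∈ projVar P := fun g hg => (hTb hg).1
  have hTd : ∀ g ∈ T, Degenerate P g := fun g hg => (hper g (hTb hg)).2
  have hall : ∀ f : ℂ → PN N, HolomorphicInto f Set.univ → OrderTwo f → (∀ z, f z ∈ projVar P) → (∃ z w, f z ≠ f w) →
      ∃ g ∈ T, ∃ a b : ℂ, a ≠ 0 ∧ ∀ z, f z = g (a * z + b) := by
    intro f hf hfo hfX hfn
    obtain ⟨a, ha, hfa⟩ := hscale f hf hfo hfX hfn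
    obtain ⟨g, hg, a', b', ha', h⟩ := hcl _ hfa
    refine ⟨g, hg, a' * a⁻¹, b', mul_ne_zero ha' (inv_ne_zero ha), fun z => ?_⟩
    have h1 := h (a⁻¹ * z)
    rw [mul_inv_cancel_left₀ ha] at h1
    rw [h1, mul_assoc]
  obtain ⟨hΞ, hne⟩ := closed_union_closure hP hz hT hTX hTd
  obtain ⟨h1, h2, h3, Q, D, hQ, hQx, -, hkob⟩ := four_of_brody hP hz hsm hgt hΞ hne (by
    intro f hf hfo hfX hfn z
    obtain ⟨g, hg, a, b, -, h⟩ := hall f hf hfo hfX hfn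
    refine Set.mem_biUnion hg ?_
    rw [h z]
    exact fun Q n _ hQ => hQ _)
  refine ⟨T, hT, fun g hg => ?_, hall, ⟨hΞ, hne⟩, h1, h2, h3, Q, D, hQ, hQx, hkob⟩
  obtain ⟨F, hF, hFb⟩ := (hTb hg).2
  exact ⟨hF.holomorphicInto, hTX g hg, nonconstant_of hF hc fun z => (hFb z).1, orderTwo_of hF fun z => (hFb z).2, hper g (hTb hg)⟩

end Pool.Agent.H14.V
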