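import Pool.Agent.H14.V.FourV
import Pool.Agent.H17R.SpecialR

/-!
# V Spec: the special set
-/

set_option autoImplicit false

open Topology Filter MvPolynomial Metric

noncomputable section

namespace Pool.Agent.H14.V

open Pool.Agent.H17 (PN VanishesAt HolomorphicInto ZariskiClosedIn puncturedDisc)
open Pool.Agent.H62.FC (Homog primeLocus closureIn specialSet unionImages IsGeneralType SemiAbelianMap unionImages_subset)
open Pool.Agent.H17LG.Variety (FunField IsLogGeneralType)
open Pool.Agent.H17EF (projVar zariskiClosure GT)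
open Pool.Agent.H17R (SpecialWith)

variable {N : ℕ} {P : Ideal (MvPolynomial (Fin (N + 1)) ℂ)}

theorem primeLocus_empty (P : Ideal (MvPolynomial (Fin (N + 1)) ℂ)) : primeLocus P ∅ = projVar P := by
  ext x
  exact ⟨fun h => h.1, fun h => ⟨h, fun i hi => absurd hi (Finset.notMem_empty i)⟩⟩

theorem isGeneralType_of_gt {K : Type} [Field K] [Algebra ℂ K] {k : ℕ}
    (h : IsLogGeneralType (K := K) (k := k) fun _ => False) : IsGeneralType K k := by
  obtain ⟨m, hm, ω, hω, r, f, hf, h1, h2⟩ := h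
  exact ⟨m, hm, ω, hω, r, f, hf, fun i E => (h1 i E).1 (fun h => h), h2⟩

theorem gt_of_isGeneralType {K : Type} [Field K] [Algebra ℂ K] {k : ℕ} (h : IsGeneralType K k) :
    IsLogGeneralType (K := K) (k := k) fun _ => False := by
  obtain ⟨m, hm, ω, hω, r, f, hf, h1, h2⟩ := h
  exact ⟨m, hm, ω, hω, r, f, hf, fun i E => ⟨fun _ => h1 i E, fun h => h.elim⟩, h2⟩

/-- the special set of a surface for which all the entire curves lie in `Ξ` -/
theorem special_of [P.IsPrime] {z : Fin 2 → FunField P} (hz : IsTranscendenceBasis ℂ z) (hgt : IsGeneralType (FunField P) 2)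
    {Ξ : Set (PN N)} (hΞ : ZariskiClosedIn (projVar P) Ξ) (hne : Ξ ≠ projVar P)
    (hbrody : ∀ f : ℂ → PN N, HolomorphicInto f Set.univ → (∀ z, f z ∈ projVar P) → (∃ z w, f z ≠ f w) → ∀ z, f z ∈ Ξ)
    (hstr : ∀ (Q : Ideal (MvPolynomial (Fin (N + 1)) ℂ)) [Q.IsPrime], Homog Q → P ≤ Q → ¬ projVar Q ⊆ Ξ →
      ∀ k, 1 ≤ k → (∃ z : Fin k → FunField Q, IsTranscendenceBasis ℂ z) → GT Q k) : SpecialWith P Ξ := by
  have hPL := primeLocus_empty P
  have hent : ∀ Y ⊆ projVar P, specialSet Y ⊆ Ξ := by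
    intro Y hY
    refine Pool.Agent.H17R.closureIn_subset hΞ hY (unionImages_subset ?_)
    rintro _ ⟨f, hf, hfY, hne, z, rfl⟩
    exact hbrody f hf (fun z => hY (hfY z)) hne z
  refine ⟨by rw [hPL]; exact hΞ, by rw [hPL]; exact hne, ?_, by rw [hPL]; exact hent _ subset_rfl, ?_⟩
  · intro k _ hk
    obtain rfl := Pool.Agent.H17EF.two_of_basis ⟨z, hz⟩ hk
    exact hgt
  · intro Q _ hQ hPQ hsub
    have hY : primeLocus Q ∅ ⊆ projVar P := fun x hx => fun R hR => hx.1 R (hPQ hR)
    refine ⟨fun k hk hz => isGeneralType_of_gt (hstr Q hQ hPQ ?_ k hk hz), hent _ hY, ?_⟩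
    · rw [← primeLocus_empty Q]
      exact hsub
    · intro heq
      exact hsub (heq ▸ hent _ hY)

/-- a doubly periodic map as a map from an elliptic curve -/
def mapOfPeriodic {f : ℂ → PN N} (hf : HolomorphicInto f Set.univ) {w : Fin 2 → ℂ} (hw : LinearIndependent ℝ w)
    (hper : ∀ i z, f (z + w i) = f z) : SemiAbelianMap N where
  g := 1
  one_le := le_rfl
  Λ :=
    { carrier := {a | ∃ l ∈ AddSubgroup.closure (Set.range w), a = fun _ => l}
      zero_mem' := ⟨0, AddSubgroup.zero_mem _, by funext i; simp⟩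
      add_mem' := by
        rintro _ _ ⟨l, hl, rfl⟩ ⟨l', hl', rfl⟩
        exact ⟨l + l', AddSubgroup.add_mem _ hl hl', by funext i; simp⟩
      neg_mem' := by
        rintro _ ⟨l, hl, rfl⟩
        exact ⟨-l, AddSubgroup.neg_mem _ hl, by funext i; simp⟩ }
  discrete := by
    apply discreteTopology_of_isOpen_singleton_zero
    rw [Metric.isOpen_singleton_iff]
    obtain ⟨δ, hδ, h⟩ := (Pool.Agent.H17EF.lat_of_basis hw).discrete
    refine ⟨δ, hδ, ?_⟩
    rintro ⟨y, l, hl, rfl⟩ hdist
    apply Subtype.ext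
    have h1 : dist (fun _ : Fin 1 => l : Fin 1 → ℂ) 0 < δ := hdist
    rw [dist_zero_right] at h1
    have h2 := (norm_le_pi_norm (fun _ : Fin 1 => l : Fin 1 → ℂ) 0).trans_lt h1
    have h5 := h l hl h2
    show (fun _ : Fin 1 => l) = 0
    funext i
    simp [h5]
  Z := ∅
  analytic := fun p => ⟨1, fun _ _ => 1, analyticAt_const, Filter.Eventually.of_forall fun x => by
    constructor
    · intro h
      exact absurd h (Set.notMem_empty x)
    · intro h
      exact absurd (congrFun h 0) one_ne_zero⟩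
  codim := Or.inl rfl
  f := fun p => f (p 0)
  holomorphic := by
    intro p _
    obtain ⟨φ, hφ, hev⟩ := hf (p 0) (Set.mem_univ _)
    have h1 : AnalyticAt ℂ (fun q : Fin 1 → ℂ => q 0) p := (analyticAt_pi_iff.mp (analyticAt_id (𝕜 := ℂ) (z := p))) 0
    exact ⟨fun q => φ (q 0), AnalyticAt.comp (g := φ) (f := fun q : Fin 1 → ℂ => q 0) hφ h1,
      h1.continuousAt.tendsto.eventually hev⟩
  periodic_Z := by simp
  periodic_f := by
    rintro _ ⟨l, hl, rfl⟩ p _
    have h1 : ∀ l ∈ AddSubgroup.closure (Set.range w), ∀ z, f (z + l) = f z := by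
      intro l hl
      induction hl using AddSubgroup.closure_induction with
      | mem x hx =>
        obtain ⟨i, rfl⟩ := hx
        exact hper i
      | zero => simp
      | add x y _ _ hx hy => intro z; rw [← add_assoc, hy, hx]
      | neg x _ hx =>
        intro z
        have := hx (z + -x)
        rwa [neg_add_cancel_right, eq_comm] at this
    exact h1 l hl (p 0)

/-- the Zariski closure of a doubly periodic curve lies in the special set -/
theorem closure_subset_special {f : ℂ → PN N} (hf : HolomorphicInto f Set.univ) (hfX : ∀ z, f z ∈ projVar P)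
    (hne : ∃ z w, f z ≠ f w) (hper : DoublyPeriodic f) : zariskiClosure f ⊆ specialSet (projVar P) := by
  obtain ⟨ω₁, ω₂, hω, h⟩ := hper
  intro x hx
  refine ⟨?_, fun k Q hQ hQf => hx Q k hQ fun z => hQf _ ?_⟩
  · intro R hR n hn
    exact hx R n hn fun z => hfX z R hR n hn
  · obtain ⟨z₁, z₂, hz⟩ := hne
    refine ⟨mapOfPeriodic hf hω (fun i => ?_), ?_, ⟨f z₁, ⟨fun _ => z₁, Set.notMem_empty _, rfl⟩, f z₂,
      ⟨fun _ => z₂, Set.notMem_empty _, rfl⟩, hz⟩, ⟨fun _ => z, Set.notMem_empty _, rfl⟩⟩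
    · fin_cases i
      · exact fun z => (h z).1
      · exact fun z => (h z).2
    · rintro _ ⟨p, -, rfl⟩
      exact hfX (p (0 : Fin 1))

end Pool.Agent.H14.V
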