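import Pool.Agent.H36.BP.SubC
import Pool.Agent.H36.BP.SubB
import Pool.Agent.H36.BP.MaxP
import Pool.Agent.H36.BP.CirA
import Pool.Agent.H17EF.Ord

/-!
# V Up: an entire curve with bounded derivative has order at most two
-/

set_option autoImplicit false

open Topology Filter Metric

namespace Pool.Agent.H14.V

open Pool.Agent.H36.BP (EN fs wd Sub OrdTwo)

variable {N : ℕ}

/-- the mean value of `log |F|` over circles -/
theorem average_le {F : ℂ → EN N} (hF : Differentiable ℂ F) (h0 : ∀ z, F z ≠ 0) {L : ℝ}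
    (hL : ∀ z, fs (F z) (deriv F z) ≤ L) {r : ℝ} (hr : 0 < r) :
    Real.circleAverage (fun z => Real.log ‖F z‖) 0 r ≤ Real.log ‖F 0‖ + L ^ 2 / 2 * r ^ 2 := by
  have hfs0 : ∀ z, 0 ≤ fs (F z) (deriv F z) := fun z => by
    unfold fs wd
    positivity
  have hlogc : Continuous fun z => Real.log ‖F z‖ := hF.continuous.norm.log fun z => norm_ne_zero_iff.2 (h0 z)
  have hpos : ∀ z, 0 < ‖F z‖ := fun z => norm_pos_iff.2 (h0 z)
  have key : ∀ ε : ℝ, 0 < ε → Real.circleAverage (fun z => Real.log ‖F z‖) 0 r ≤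
      Real.log ‖F 0‖ + L ^ 2 / 2 * r ^ 2 + ε * (2 + r ^ 2) := by
    intro ε hε
    obtain ⟨g, hg, hgF⟩ := Pool.Agent.H36.BP.circle_approx hr (fun z => Real.log ‖F z‖) hlogc.continuousOn hε
    obtain ⟨w, hw⟩ : ∃ w : ℂ → ℝ, ∀ z, w z = ‖F z‖ ^ (-1 : ℝ) * ‖Complex.exp (g z)‖ * Real.exp ((L ^ 2 / 2 + ε) * ‖z‖ ^ 2) :=
      ⟨_, fun _ => rfl⟩
    have hwc : Continuous w := by
      have : w = fun z => ‖F z‖ ^ (-1 : ℝ) * ‖Complex.exp (g z)‖ * Real.exp ((L ^ 2 / 2 + ε) * ‖z‖ ^ 2) := funext hw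
      rw [this]
      refine ((hF.continuous.norm.rpow_const fun z => Or.inl (hpos z).ne').mul
        (Complex.continuous_exp.comp hg.continuous).norm).mul (Real.continuous_exp.comp (continuous_const.mul (continuous_norm.pow 2)))
    have hsub : ∀ z ∈ ball (0 : ℂ) r, 0 < w z → ∃ c, 0 < c ∧ Sub w z c := by
      intro z₀ _ _
      have h1 := Pool.Agent.H36.BP.Sub.norm_rpow (hF.analyticAt z₀) (h0 z₀) (-1)
      have h2 : Sub (fun z => ‖Complex.exp (g z)‖) z₀ 0 :=
        Pool.Agent.H36.BP.Sub.of_holo (hg.analyticAt z₀).cexp (Complex.exp_ne_zero _)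
      have h3 : Sub (fun z : ℂ => Real.exp ((L ^ 2 / 2 + ε) * ‖z‖ ^ 2)) z₀ (L ^ 2 / 2 + ε) := by
        have h := Pool.Agent.H36.BP.Sub.exp_sq (t := fun z : ℂ => z) (z₀ := z₀) analyticAt_id (L ^ 2 / 2 + ε)
        simpa using h
      have hS := (h1.mul h2).mul h3
      refine ⟨_, ?_, hS.congr (Filter.Eventually.of_forall fun z => (hw z).symm)⟩
      have h4 : fs (F z₀) (deriv F z₀) ^ 2 ≤ L ^ 2 := pow_le_pow_left₀ (hfs0 z₀) (hL z₀) 2
      linarith
    have hval : ∀ z, w z = Real.exp (-Real.log ‖F z‖ + (g z).re + (L ^ 2 / 2 + ε) * ‖z‖ ^ 2) := fun z => by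
      rw [hw, Complex.norm_exp, Real.rpow_neg_one, Real.exp_add, Real.exp_add, Real.exp_neg, Real.exp_log (hpos z)]
    have hmax := Pool.Agent.H36.BP.max_principle (isCompact_closedBall (0 : ℂ) r) isOpen_ball ball_subset_closedBall
      hwc.continuousOn.upperSemicontinuousOn hsub (A := Real.exp (ε + (L ^ 2 / 2 + ε) * r ^ 2)) (Real.exp_pos _).le (by
        rintro z ⟨hz1, hz2⟩
        have hzr : ‖z‖ = r := by
          rw [mem_closedBall_zero_iff] at hz1
          rw [mem_ball_zero_iff, not_lt] at hz2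
          exact le_antisymm hz1 hz2
        have h1 := (abs_le.1 (hgF z (by rw [mem_sphere_zero_iff_norm]; exact hzr))).2
        rw [hval, Real.exp_le_exp, hzr]
        linarith)
    have h1 := hmax 0 (mem_closedBall_self hr.le)
    rw [hval, Real.exp_le_exp, norm_zero] at h1
    have hgre : (g 0).re = Real.circleAverage (fun z => (g z).re) 0 r := by
      have hgd : DiffContOnCl ℂ g (ball 0 |r|) := hg.diffContOnCl
      have h1 := hgd.circleAverage
      have h2 := ContinuousLinearMap.circleAverage_comp_comm Complex.reCLM (f := g) (c := (0 : ℂ)) (R := r)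
        (hg.continuous.continuousOn.circleIntegrable')
      rw [h1] at h2
      exact h2.symm
    have hav : Real.circleAverage (fun z => Real.log ‖F z‖) 0 r ≤ Real.circleAverage (fun z => (g z).re + ε) 0 r := by
      refine Real.circleAverage_mono hlogc.continuousOn.circleIntegrable'
        ((Complex.continuous_re.comp hg.continuous).add continuous_const).continuousOn.circleIntegrable' fun z hz => ?_
      rw [abs_of_pos hr] at hz
      have := (abs_le.1 (hgF z hz)).1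
      show Real.log ‖F z‖ ≤ (g z).re + ε
      linarith
    have h2 : Real.circleAverage (fun z => (g z).re + ε) 0 r = Real.circleAverage (fun z => (g z).re) 0 r + ε := by
      have hci : CircleIntegrable (fun z => (g z).re) 0 r :=
        (Complex.continuous_re.comp hg.continuous).continuousOn.circleIntegrable'
      rw [Real.circleAverage_fun_add hci (circleIntegrable_const _ _ _), Real.circleAverage_const]
    rw [h2, ← hgre] at hav
    nlinarith
  refine le_of_forall_pos_le_add fun δ hδ => ?_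
  have h1 := key (δ / (2 + r ^ 2)) (by positivity)
  rwa [div_mul_cancel₀ _ (by positivity)] at h1

/-- the same in the form of `OrderTwo` -/
theorem exists_average {F : ℂ → EN N} (hF : Differentiable ℂ F) (h0 : ∀ z, F z ≠ 0) {L : ℝ}
    (hL : ∀ z, fs (F z) (deriv F z) ≤ L) :
    ∃ A : ℝ, ∀ r : ℝ, 0 < r → Real.circleAverage (fun z => Real.log ‖F z‖) 0 r ≤ A * (1 + r ^ 2) := by
  refine ⟨|Real.log ‖F 0‖| + L ^ 2 / 2, fun r hr => (average_le hF h0 hL hr).trans ?_⟩
  have h1 := le_abs_self (Real.log ‖F 0‖)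
  have h2 : 0 ≤ |Real.log ‖F 0‖| * r ^ 2 := by positivity
  have h3 : 0 ≤ L ^ 2 / 2 := by positivity
  nlinarith

theorem norm_ofLp_le (x : EN N) : ‖x.ofLp‖ ≤ ‖x‖ := by
  rw [pi_norm_le_iff_of_nonneg (norm_nonneg _)]
  exact fun i => PiLp.norm_apply_le x i

theorem norm_le_ofLp (x : EN N) : ‖x‖ ≤ Real.sqrt (N + 1) * ‖x.ofLp‖ := by
  rw [EuclideanSpace.norm_eq]
  have h1 : ∑ i, ‖x i‖ ^ 2 ≤ (N + 1) * ‖x.ofLp‖ ^ 2 := by
    calc ∑ i, ‖x i‖ ^ 2 ≤ ∑ _i : Fin (N + 1), ‖x.ofLp‖ ^ 2 :=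
          Finset.sum_le_sum fun i _ => pow_le_pow_left₀ (norm_nonneg _) (norm_le_pi_norm x.ofLp i) 2
      _ = (N + 1) * ‖x.ofLp‖ ^ 2 := by simp
  calc Real.sqrt (∑ i, ‖x i‖ ^ 2) ≤ Real.sqrt ((N + 1) * ‖x.ofLp‖ ^ 2) := Real.sqrt_le_sqrt h1
    _ = Real.sqrt (N + 1) * ‖x.ofLp‖ := by rw [Real.sqrt_mul (by positivity), Real.sqrt_sq (norm_nonneg _)]

/-- from the Euclidean norm to the maximum norm -/
theorem average_ofLp {F : ℂ → EN N} (hF : Differentiable ℂ F) (h0 : ∀ z, F z ≠ 0) {A : ℝ}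
    (hA : ∀ r : ℝ, 0 < r → Real.circleAverage (fun z => Real.log ‖F z‖) 0 r ≤ A * (1 + r ^ 2)) :
    ∀ r : ℝ, 0 < r → Real.circleAverage (fun z => Real.log ‖(F z).ofLp‖) 0 r ≤ A * (1 + r ^ 2) := by
  intro r hr
  refine le_trans ?_ (hA r hr)
  have h0' : ∀ z, (F z).ofLp ≠ 0 := fun z h => h0 z (WithLp.ofLp_injective 2 h)
  have hc : Continuous fun z => (F z).ofLp := (PiLp.continuous_ofLp 2 _).comp hF.continuous
  refine Real.circleAverage_mono (hc.norm.log fun z => norm_ne_zero_iff.2 (h0' z)).continuousOn.circleIntegrable'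
    (hF.continuous.norm.log fun z => norm_ne_zero_iff.2 (h0 z)).continuousOn.circleIntegrable' fun z _ => ?_
  exact Real.log_le_log (norm_pos_iff.2 (h0' z)) (norm_ofLp_le _)

/-- from the maximum norm to the Euclidean norm -/
theorem average_toLp {F : ℂ → Fin (N + 1) → ℂ} (hF : Differentiable ℂ F) (h0 : ∀ z, F z ≠ 0) {A : ℝ}
    (hA : ∀ r : ℝ, 0 < r → Real.circleAverage (fun z => Real.log ‖F z‖) 0 r ≤ A * (1 + r ^ 2)) :
    ∃ A' : ℝ, ∀ r : ℝ, 0 < r → Real.circleAverage (fun z => Real.log ‖(WithLp.toLp 2 (F z) : EN N)‖) 0 r ≤ A' * (1 + r ^ 2) := by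
  obtain ⟨K, hK⟩ : ∃ K : ℝ, K = |Real.log (Real.sqrt (N + 1))| := ⟨_, rfl⟩
  refine ⟨A + K, fun r hr => ?_⟩
  have h0' : ∀ z, (WithLp.toLp 2 (F z) : EN N) ≠ 0 := fun z h => h0 z (WithLp.toLp_injective 2 h)
  have hc : Continuous fun z => (WithLp.toLp 2 (F z) : EN N) := (PiLp.continuous_toLp 2 _).comp hF.continuous
  have h1 : Real.circleAverage (fun z => Real.log ‖(WithLp.toLp 2 (F z) : EN N)‖) 0 r ≤
      Real.circleAverage (fun z => Real.log ‖F z‖ + K) 0 r := by
    refine Real.circleAverage_mono (hc.norm.log fun z => norm_ne_zero_iff.2 (h0' z)).continuousOn.circleIntegrable'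
      ((hF.continuous.norm.log fun z => norm_ne_zero_iff.2 (h0 z)).add continuous_const).continuousOn.circleIntegrable' fun z _ => ?_
    have h2 := norm_le_ofLp (WithLp.toLp 2 (F z) : EN N)
    have h3 : 0 < ‖F z‖ := norm_pos_iff.2 (h0 z)
    have h4 : (0 : ℝ) < Real.sqrt (N + 1) := by positivity
    have h5 := Real.log_le_log (norm_pos_iff.2 (h0' z)) h2
    rw [Real.log_mul h4.ne' (by simpa using h3.ne')] at h5
    have h6 := le_abs_self (Real.log (Real.sqrt (N + 1)))
    rw [← hK] at h6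
    show Real.log ‖(WithLp.toLp 2 (F z) : EN N)‖ ≤ Real.log ‖F z‖ + K
    linarith
  have h2 : Real.circleAverage (fun z => Real.log ‖F z‖ + K) 0 r = Real.circleAverage (fun z => Real.log ‖F z‖) 0 r + K := by
    rw [Real.circleAverage_fun_add (hF.continuous.norm.log fun z => norm_ne_zero_iff.2 (h0 z)).continuousOn.circleIntegrable'
      (circleIntegrable_const _ _ _), Real.circleAverage_const]
  have h3 := hA r hr
  have h4 : 0 ≤ K * r ^ 2 := by rw [hK]; positivity
  nlinarith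

end Pool.Agent.H14.V
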