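import Pool.Agent.H14.V.Fam
import Pool.Agent.H14.V.Up
import Pool.Agent.H17EF.Four
import Pool.Agent.H62.FC.Main

/-!
# V MainV: entire curves in surfaces of general type, in the projective space
-/

set_option autoImplicit false

open Topology Filter MvPolynomial Metric

noncomputable section

namespace Pool.Agent.H14.V

open Pool.Agent.H17 (PN VanishesAt HolomorphicInto ZariskiClosedIn puncturedDisc)
open Pool.Agent.H62.FC (Homog)
open Pool.Agent.H17BP (Surface IsForm)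
open Pool.Agent.H17LG.Variety (FunField IsLogGeneralType)
open Pool.Agent.H13.SM (conTan cone)
open Pool.Agent.H36.BP (EN fs wd formT isCone_transport tan_transport OrdTwo)
open Pool.Agent.H14.PP (IsCone Chart Form)
open Pool.Agent.H13.OT (OrderTwo)
open Pool.Agent.H14.KB (KobayashiHyperbolicModulo)
open Pool.Agent.H17EF (projVar zariskiClosure coneE LE GT prP prP_injective mk_symm mk_mem_projVar)
open Pool.Agent.H62.EF (MN pr Charts)
open Pool.Agent.H92.TH (SymDiff)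
open Pool.Agent.H5.BD (BC Equi evp)

variable {N : ℕ}

/-- `F` is an entire map to `ℂ^(N+1)` without zeros which represents `f`. -/
def IsLift (F : ℂ → EuclideanSpace ℂ (Fin (N + 1))) (f : ℂ → PN N) : Prop :=
  Differentiable ℂ F ∧ ∀ z, ∃ h : (F z).ofLp ≠ 0, f z = Projectivization.mk ℂ (F z).ofLp h

/-- The entire curves `f` in `X` with `c ≤ |f'| ≤ L`. -/
def boundedDistortion (X : Set (PN N)) (c L : ℝ) : Set (ℂ → PN N) :=
  {f | (∀ z, f z ∈ X) ∧ ∃ F, IsLift F f ∧ ∀ z, c ≤ fs (F z) (deriv F z) ∧ fs (F z) (deriv F z) ≤ L}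

/-- The entire curves `f` in `X` with `|f'| ≤ L`. -/
def brodyCurves (X : Set (PN N)) (L : ℝ) : Set (ℂ → PN N) :=
  {f | (∀ z, f z ∈ X) ∧ ∃ F, IsLift F f ∧ ∀ z, fs (F z) (deriv F z) ≤ L}

/-- The entire curve `f` is tangent to the symmetric differential `θ`. -/
def TangentTo {X : Set (EN N)} {m : ℕ} (θ : SymDiff X m) (f : ℂ → PN N) : Prop :=
  ∃ F, IsLift F f ∧ ∀ z, θ.toFun (F z) (deriv F z) = 0

/-- The map `f` is doubly periodic. -/
def DoublyPeriodic (f : ℂ → PN N) : Prop :=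
  ∃ ω₁ ω₂ : ℂ, LinearIndependent ℝ ![ω₁, ω₂] ∧ ∀ z, f (z + ω₁) = f z ∧ f (z + ω₂) = f z

/-- The map `f` lies in a hypersurface which does not contain the variety of `P`. -/
def Degenerate (P : Ideal (MvPolynomial (Fin (N + 1)) ℂ)) (f : ℂ → PN N) : Prop :=
  ∃ (Q : MvPolynomial (Fin (N + 1)) ℂ) (d : ℕ), Q.IsHomogeneous d ∧ Q ∉ P ∧ ∀ z, VanishesAt Q (f z)

theorem IsLift.holomorphicInto {F : ℂ → EN N} {f : ℂ → PN N} (h : IsLift F f) : HolomorphicInto f Set.univ := by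
  intro z _
  refine ⟨fun z => (LE N).symm (F z), (((LE N).symm : EN N →L[ℂ] (Fin (N + 1) → ℂ)).analyticAt _).comp (h.1.analyticAt z), ?_⟩
  exact Eventually.of_forall fun w => h.2 w

theorem IsLift.ne_zero {F : ℂ → EN N} {f : ℂ → PN N} (h : IsLift F f) (z : ℂ) : F z ≠ 0 := by
  obtain ⟨h1, -⟩ := h.2 z
  exact fun h2 => h1 (by rw [h2]; rfl)

theorem IsLift.prP {F : ℂ → EN N} {f : ℂ → PN N} (h : IsLift F f) (z : ℂ) : prP (f z) = pr (F z) := by
  obtain ⟨h1, h2⟩ := h.2 z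
  rw [h2]
  exact mk_symm (F := F z) h1

theorem IsLift.comp {F : ℂ → EN N} {f : ℂ → PN N} (h : IsLift F f) (a b : ℂ) :
    IsLift (fun z => F (a * z + b)) fun z => f (a * z + b) :=
  ⟨h.1.comp ((differentiable_id.const_mul a).add_const b), fun z => h.2 (a * z + b)⟩

theorem exists_isLift {f : ℂ → PN N} (hf : HolomorphicInto f Set.univ) : ∃ F, IsLift F f := by
  obtain ⟨F, h1, h2⟩ := Pool.Agent.H17EF.exists_lift hf
  exact ⟨F, h1, h2⟩

theorem isLift_mk {F : ℂ → EN N} (hF : Differentiable ℂ F) (h0 : ∀ z, (F z).ofLp ≠ 0) :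
    IsLift F fun z => Projectivization.mk ℂ (F z).ofLp (h0 z) :=
  ⟨hF, fun z => ⟨h0 z, rfl⟩⟩

variable {P : Ideal (MvPolynomial (Fin (N + 1)) ℂ)} 

theorem IsLift.mem_iff (hP : Homog P) {F : ℂ → EN N} {f : ℂ → PN N} (h : IsLift F f) (z : ℂ) :
    f z ∈ projVar P ↔ F z ∈ coneE P := by
  obtain ⟨h1, h2⟩ := h.2 z
  rw [h2, mk_mem_projVar hP h1]
  rfl

/-- the theorem of helper5 on curves with bounded distortion, for the surface given by `P` -/
theorem bounded [P.IsPrime] {z : Fin 2 → FunField P} (hP : Homog P) (hz : IsTranscendenceBasis ℂ z)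
    (hsm : ∀ y : Fin (N + 1) → ℂ, y ≠ 0 → (∀ Q ∈ P, eval y Q = 0) → Module.finrank ℂ (conTan P y) ≤ 3) (hgt : GT P 2)
    {c : ℝ} (hc : 0 < c) (L : ℝ) :
    (∀ F ∈ BC (coneE P) c L, ∃ ω₁ ω₂ : ℂ, LinearIndependent ℝ ![ω₁, ω₂] ∧
      ∀ z, pr (F (z + ω₁)) = pr (F z) ∧ pr (F (z + ω₂)) = pr (F z)) ∧
      ∃ T : Finset (ℂ → EN N), (∀ G ∈ T, G ∈ BC (coneE P) c L) ∧ ∀ F ∈ BC (coneE P) c L, ∃ G ∈ T, Equi F G := by
  rcases le_or_gt L 0 with hL | hL
  · have h1 : ∀ F, F ∉ BC (coneE P) c L := fun F hF => by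
      have := hF.2.2 0
      linarith [this.1, this.2]
    exact ⟨fun F hF => absurd hF (h1 F), ∅, by simp, fun F hF => absurd hF (h1 F)⟩
  have hS : Surface (cone P) := Pool.Agent.H13.SM.surface_cone hP hz fun y hy => hsm y hy.1 hy.2
  have hLGT : Pool.Agent.H62.FC.LogGeneralType P ∅ 2 := by
    have h1 : (Pool.Agent.H62.FC.OnBoundary P ∅ (w := 2)) = fun _ => False := by
      funext E
      apply propext
      constructor
      · rintro ⟨j, -, -, i, hi, -⟩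
        exact absurd hi (Finset.notMem_empty i)
      · exact False.elim
    unfold Pool.Agent.H62.FC.LogGeneralType
    rw [h1]
    exact hgt
  obtain ⟨M, Om, D₀, Q₀, hM, hQ₀, hQ₀P, hOm, hnz⟩ := Pool.Agent.H68.KR.exists_form_of_smooth hP hz (fun y hy hyP => hsm y hy hyP) hLGT
  have hOm' : IsForm (cone P) M 1 Om := hOm
  refine Pool.Agent.H5.BD.curves_of_bounded_distortion (isCone_transport (LE N) hS) (Pool.Agent.H17EF.charts hS) hM (formT (LE N) hOm')
    (q := fun y => eval ((LE N).symm y) Q₀) (d := D₀) ?_ ?_ ?_ hc hL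
  · intro c x
    rw [map_smul, Pool.Agent.H17EF.eval_smul_form hQ₀]
  · intro x hx hev
    obtain ⟨σ, τ, hc, h0⟩ := hS.chart ((LE N).symm x) hx
    have h1 := Pool.Agent.H13.SM.frequently_ne_zero hP hz (fun y hy => hsm y hy.1 hy.2) hc hQ₀ hQ₀P
    apply h1
    have h2 : Tendsto (fun p => (LE N) (σ p)) (𝓝 (0 : ℂ × ℂ)) (𝓝 x) := by
      have h3 : ContinuousAt (fun p => (LE N) (σ p)) 0 := (LE N).continuous.continuousAt.comp hc.σ_an.continuousAt
      have h4 := h3.tendsto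
      rw [h0, ContinuousLinearEquiv.apply_symm_apply] at h4
      exact h4
    filter_upwards [h2.eventually hev, hc.σ_mem] with p hp hp'
    have h5 : (LE N) (σ p) ∈ coneE P := by
      show (LE N).symm ((LE N) (σ p)) ∈ cone P
      rw [ContinuousLinearEquiv.symm_apply_apply]
      exact hp'
    have h6 := hp h5
    rw [ContinuousLinearEquiv.symm_apply_apply] at h6
    simpa using h6
  · intro x hx hxT v w hv hw hind
    refine hnz ((LE N).symm x) hx ?_ _ (tan_transport (LE N) hv) _ (tan_transport (LE N) hw) ?_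
    · rintro ⟨h1, h2⟩
      exact hxT ⟨hx, h2⟩
    · have h3 := hind.map' ((LE N).symm : EN N →ₗ[ℂ] (Fin (N + 1) → ℂ)) (LinearMap.ker_eq_bot.2 (LE N).symm.injective)
      have h4 : (((LE N).symm : EN N →ₗ[ℂ] (Fin (N + 1) → ℂ)) ∘ ![x, v, w] : Fin 3 → Fin (N + 1) → ℂ) =
          ![(LE N).symm x, (LE N).symm v, (LE N).symm w] := by
        funext i
        fin_cases i <;> rfl
      rw [h4] at h3
      exact h3

/-- curves with bounded distortion, downstairs -/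
theorem mem_BC (hP : Homog P) {c L : ℝ} {F : ℂ → EN N} {f : ℂ → PN N} (h : IsLift F f) (hf : ∀ z, f z ∈ projVar P)
    (hF : ∀ z, c ≤ fs (F z) (deriv F z) ∧ fs (F z) (deriv F z) ≤ L) : F ∈ BC (coneE P) c L :=
  ⟨h.1, fun z => (h.mem_iff hP z).1 (hf z), hF⟩

theorem doublyPeriodic_of {F : ℂ → EN N} {f : ℂ → PN N} (h : IsLift F f) (hF : ∃ ω₁ ω₂ : ℂ, LinearIndependent ℝ ![ω₁, ω₂] ∧
      ∀ z, pr (F (z + ω₁)) = pr (F z) ∧ pr (F (z + ω₂)) = pr (F z)) : DoublyPeriodic f := by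
  obtain ⟨ω₁, ω₂, h1, h2⟩ := hF
  refine ⟨ω₁, ω₂, h1, fun z => ⟨prP_injective ?_, prP_injective ?_⟩⟩
  · rw [h.prP, h.prP, (h2 z).1]
  · rw [h.prP, h.prP, (h2 z).2]

/-- doubly periodic curves with bounded derivative are algebraically degenerate -/
theorem degenerate_of [P.IsPrime] {z : Fin 2 → FunField P} (hP : Homog P) (hz : IsTranscendenceBasis ℂ z)
    {F : ℂ → EN N} {f : ℂ → PN N} (h : IsLift F f) (hf : ∀ z, f z ∈ projVar P) {L : ℝ} (hL : ∀ z, fs (F z) (deriv F z) ≤ L)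
    (hper : DoublyPeriodic f) : Degenerate P f := by
  obtain ⟨ω₁, ω₂, hω, h2⟩ := hper
  have h1 : OrdTwo fun z => (LE N).symm (F z) := Pool.Agent.H17EF.ordTwo_symm (Pool.Agent.H17EF.ordTwo_of_fs h.1 h.ne_zero hL)
  have hperiod : ∀ ω, (∀ z, f (z + ω) = f z) → Pool.Agent.H17EF.IsPeriod (fun z => (LE N).symm (F z)) ω := by
    intro ω hω z
    obtain ⟨h3, h3'⟩ := h.2 (z + ω)
    obtain ⟨h4, h4'⟩ := h.2 z
    have h5 := hω z
    rw [h3', h4', Projectivization.mk_eq_mk_iff'] at h5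
    obtain ⟨a, ha⟩ := h5
    refine ⟨a, ?_, ha.symm⟩
    rintro rfl
    rw [zero_smul] at ha
    exact h3 ha.symm
  obtain ⟨Q, d, hQ, hQP, hQF⟩ := Pool.Agent.H17EF.exists_form_of_periodic hz ((LE N).symm.differentiable.comp h.1)
    (fun z => (h.2 z).1) h1 (fun z Q hQ => ((h.mem_iff hP z).1 (hf z)).2 Q hQ) hω
    (hperiod ω₁ fun z => (h2 z).1) (hperiod ω₂ fun z => (h2 z).2)
  refine ⟨Q, d, hQ, hQP, fun z => ?_⟩
  obtain ⟨h2, h2'⟩ := h.2 z
  rw [h2']
  obtain ⟨a, ha, hrep⟩ := Pool.Agent.H36.BP.rep_mk h2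
  unfold VanishesAt
  rw [hrep, Pool.Agent.H17EF.eval_smul_form hQ]
  have := hQF z
  exact mul_eq_zero_of_right _ this

/-- curves with bounded derivative have order at most two -/
theorem orderTwo_of {F : ℂ → EN N} {f : ℂ → PN N} (h : IsLift F f) {L : ℝ} (hL : ∀ z, fs (F z) (deriv F z) ≤ L) : OrderTwo f := by
  have h1 : OrdTwo fun z => (LE N).symm (F z) := Pool.Agent.H17EF.ordTwo_symm (Pool.Agent.H17EF.ordTwo_of_fs h.1 h.ne_zero hL)
  have h2 : Differentiable ℂ fun z => (LE N).symm (F z) := (LE N).symm.differentiable.comp h.1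
  have h3 : ∀ z, (LE N).symm (F z) ≠ 0 := fun z => (h.2 z).1
  have h4 : ∀ z, Pool.Agent.H17BP.HolP (fun z => (LE N).symm (F z)) z := by
    intro z
    exact ⟨fun z => (LE N).symm (F z), h2.analyticAt z, h3 z, Eventually.of_forall fun w => ⟨1, one_ne_zero, by simp⟩⟩
  have h5 := Pool.Agent.H13.OT.OrdTwo.orderTwo h3 h4 h1
  have h6 : f = fun z => Projectivization.mk ℂ ((LE N).symm (F z)) (h3 z) := by
    funext z
    exact (h.2 z).2
  rw [h6]
  exact h5

/-- a curve with positive derivative is not constant -/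
theorem nonconstant_of {F : ℂ → EN N} {f : ℂ → PN N} (h : IsLift F f) {c : ℝ} (hc : 0 < c) (hF : ∀ z, c ≤ fs (F z) (deriv F z)) :
    ∃ z w, f z ≠ f w := by
  by_contra hcon
  push Not at hcon
  have h1 : ∀ z, pr (F z) = pr (F 0) := fun z => by rw [← h.prP, ← h.prP, hcon z 0]
  -- the derivative of a constant curve is a multiple of the curve
  have h2 : ∀ z, ∃ a : ℂ, F z = a • F 0 := fun z => by
    obtain ⟨a, -, ha⟩ := (Pool.Agent.H62.EF.pr_eq_iff (h.ne_zero z) (h.ne_zero 0)).1 (h1 z)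
    exact ⟨a, ha⟩
  choose a ha using h2
  have h3 : ∃ b : ℂ, deriv F 0 = b • F 0 := by
    have hn : (inner ℂ (F 0) (F 0) : ℂ) ≠ 0 := by
      rw [inner_self_ne_zero]
      exact h.ne_zero 0
    have ha' : ∀ z, a z = (inner ℂ (F 0) (F 0) : ℂ)⁻¹ * inner ℂ (F 0) (F z) := fun z => by
      conv_rhs => rw [ha z, inner_smul_right]
      field_simp
    have hd : HasDerivAt (fun z => (inner ℂ (F 0) (F z) : ℂ)) (inner ℂ (F 0) (deriv F 0)) 0 :=
      ((innerSL ℂ (F 0)).hasFDerivAt.comp_hasDerivAt 0 (h.1 0).hasDerivAt)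
    have hda : HasDerivAt a ((inner ℂ (F 0) (F 0) : ℂ)⁻¹ * inner ℂ (F 0) (deriv F 0)) 0 := by
      have : a = fun z => (inner ℂ (F 0) (F 0) : ℂ)⁻¹ * inner ℂ (F 0) (F z) := funext ha'
      rw [this]
      exact hd.const_mul _
    have hdF : HasDerivAt F (((inner ℂ (F 0) (F 0) : ℂ)⁻¹ * inner ℂ (F 0) (deriv F 0)) • F 0) 0 := by
      exact (hda.smul_const (F 0)).congr_of_eventuallyEq (Eventually.of_forall ha)
    exact ⟨_, hdF.deriv⟩
  obtain ⟨b, hb⟩ := h3
  have h4 := hF 0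
  rw [hb, fs_smul_right] at h4
  have h5 : fs (F 0) (F 0) = 0 := by
    unfold fs wd
    rw [inner_self_eq_norm_sq_to_K]
    simp only [norm_pow, norm_algebraMap', norm_norm]
    rw [show ‖F 0‖ ^ 2 * ‖F 0‖ ^ 2 - (‖F 0‖ ^ 2) ^ 2 = 0 by ring, Real.sqrt_zero, zero_div]
  rw [h5, mul_zero] at h4
  linarith

end Pool.Agent.H14.V
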