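import Pool.Agent.H5.BD.CThin
import Pool.Agent.H92.TH.Zal
import Pool.Agent.H15.V.Liou

/-!
# V Fam: curves of order two on surfaces with symmetric differentials
-/

set_option autoImplicit false

open Topology Filter Metric

namespace Pool.Agent.H14.V

open Pool.Agent.H36.BP (EN fs wd)
open Pool.Agent.H14.PP (IsCone Chart Form Tan)
open Pool.Agent.H62.EF (MN pr Charts)
open Pool.Agent.H92.TH (SymDiff NoTangentBrody exists_lipschitz)
open Pool.Agent.H5.BD (BC Equi evp)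

variable {N : ℕ} {X : Set (EN N)}

theorem tan_of_curve {F : ℂ → EN N} (hF : Differentiable ℂ F) (hFX : ∀ z, F z ∈ X) (z : ℂ) : Tan X (F z) (deriv F z) := by
  refine ⟨fun w => F (z + w), ⟨(hF.comp (differentiable_id.const_add z)).analyticAt 0, Eventually.of_forall fun w => hFX _⟩, by simp, ?_⟩
  have := deriv_comp_const_add (f := F) z 0
  simpa using this

theorem theta_entire (hX : IsCone X) (hch : Charts X) {m : ℕ} (θ : SymDiff X m) {F : ℂ → EN N} (hF : Differentiable ℂ F)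
    (hFX : ∀ z, F z ∈ X) : Differentiable ℂ fun z => θ.toFun (F z) (deriv F z) :=
  fun z => (θ.curve_an hX hch ⟨hF.analyticAt z, Eventually.of_forall hFX⟩).differentiableAt

/-- **Brody curves on surfaces with a symmetric differential.** -/
theorem brody_const (hX : IsCone X) (hch : Charts X) {m : ℕ} (θ : SymDiff X m) {F : ℂ → EN N} (hF : Differentiable ℂ F)
    (hFX : ∀ z, F z ∈ X) {L : ℝ} (hL : ∀ z, fs (F z) (deriv F z) ≤ L) (z w : ℂ) :
    θ.toFun (F z) (deriv F z) = θ.toFun (F w) (deriv F w) := by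
  obtain ⟨C, hC, hb⟩ := θ.bound hX hch
  apply (theta_entire hX hch θ hF hFX).apply_eq_apply_of_bounded
  rw [isBounded_iff_forall_norm_le]
  refine ⟨C * L ^ m, ?_⟩
  rintro _ ⟨z, rfl⟩
  refine (hb _ (hFX z) _ (tan_of_curve hF hFX z)).trans ?_
  have h0 : 0 ≤ fs (F z) (deriv F z) := by
    unfold fs wd
    positivity
  exact mul_le_mul_of_nonneg_left (pow_le_pow_left₀ h0 (hL z) m) hC.le

theorem fs_nonneg' (x v : EN N) : 0 ≤ fs x v := by
  unfold fs wd
  positivity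

/-- A lower bound of the derivative. -/
theorem exists_lower (hX : IsCone X) (hch : Charts X) {m : ℕ} (hm : 1 ≤ m) (θ : SymDiff X m) {b : ℂ} (hb : b ≠ 0) :
    ∃ c : ℝ, 0 < c ∧ ∀ F : ℂ → EN N, Differentiable ℂ F → (∀ z, F z ∈ X) →
      (∀ z, θ.toFun (F z) (deriv F z) = b) → ∀ z, c ≤ fs (F z) (deriv F z) := by
  obtain ⟨C, hC, hbd⟩ := θ.bound hX hch
  refine ⟨(‖b‖ / C) ^ ((m : ℝ)⁻¹), Real.rpow_pos_of_pos (div_pos (norm_pos_iff.2 hb) hC) _, fun F hF hFX h z => ?_⟩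
  have h1 := hbd _ (hFX z) _ (tan_of_curve hF hFX z)
  rw [h z] at h1
  have h2 : ‖b‖ / C ≤ fs (F z) (deriv F z) ^ m := by
    rw [div_le_iff₀ hC]
    linarith
  calc (‖b‖ / C) ^ ((m : ℝ)⁻¹) ≤ (fs (F z) (deriv F z) ^ m) ^ ((m : ℝ)⁻¹) :=
        Real.rpow_le_rpow (by positivity) h2 (by positivity)
    _ = fs (F z) (deriv F z) := by
        rw [← Real.rpow_natCast, ← Real.rpow_mul (fs_nonneg' _ _), mul_inv_cancel₀, Real.rpow_one]
        exact_mod_cast (by omega : m ≠ 0)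

theorem fs_smul_right (x v : EN N) (a : ℂ) : fs x (a • v) = ‖a‖ * fs x v := by
  unfold fs wd
  rw [norm_smul, inner_smul_right, norm_mul]
  have : ‖x‖ ^ 2 * (‖a‖ * ‖v‖) ^ 2 - (‖a‖ * ‖inner ℂ x v‖) ^ 2 = ‖a‖ ^ 2 * (‖x‖ ^ 2 * ‖v‖ ^ 2 - ‖inner ℂ x v‖ ^ 2) := by ring
  rw [this, Real.sqrt_mul (by positivity), Real.sqrt_sq (norm_nonneg _)]
  ring

/-- the curve `F (a z)` -/
theorem deriv_scale {F : ℂ → EN N} (hF : Differentiable ℂ F) (a z : ℂ) : deriv (fun z => F (a * z)) z = a • deriv F (a * z) := by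
  have h1 : HasDerivAt (fun z : ℂ => a * z) a z := by simpa using (hasDerivAt_id z).const_mul a
  exact ((hF (a * z)).hasDerivAt.scomp z h1).deriv

theorem theta_scale {m : ℕ} (θ : SymDiff X m) {F : ℂ → EN N} (hF : Differentiable ℂ F) (hFX : ∀ z, F z ∈ X) (a z : ℂ) :
    θ.toFun (F (a * z)) (deriv (fun z => F (a * z)) z) = a ^ m * θ.toFun (F (a * z)) (deriv F (a * z)) := by
  rw [deriv_scale hF, θ.smul _ (hFX _) _ (tan_of_curve hF hFX _)]

/-- **Curves of order two, after a change of the scale, have bounded distortion.** -/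
theorem exists_scale (hX : IsCone X) (hch : Charts X) {k : ℕ} {m : Fin k → ℕ} (hm : ∀ j, 1 ≤ m j)
    (θ : ∀ j, SymDiff X (m j)) (hNT : NoTangentBrody θ) :
    ∃ c L : ℝ, 0 < c ∧ 0 < L ∧ ∀ F : ℂ → EN N, Differentiable ℂ F → (∀ z, F z ∈ X) →
      (∃ A : ℝ, ∀ r : ℝ, 0 < r → Real.circleAverage (fun z => Real.log ‖F z‖) 0 r ≤ A * (1 + r ^ 2)) →
      (¬ ∀ z, fs (F z) (deriv F z) = 0) → ∃ a : ℂ, a ≠ 0 ∧ (fun z => F (a * z)) ∈ BC X c L := by
  classical
  obtain ⟨L, hL, hlip⟩ := exists_lipschitz hX hch hm θ hNT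
  choose C hC hbd using fun j => (θ j).bound hX hch
  -- a common lower bound
  have hlow : ∀ s : Finset (Fin k), ∃ c : ℝ, 0 < c ∧ ∀ j ∈ s, ∀ t : ℝ, 0 ≤ t → 1 ≤ C j * t ^ m j → c ≤ t := by
    intro s
    induction s using Finset.induction_on with
    | empty => exact ⟨1, one_pos, by simp⟩
    | insert j s _ ih =>
      obtain ⟨c, hc, h⟩ := ih
      obtain ⟨c', hc', h'⟩ : ∃ c' : ℝ, 0 < c' ∧ ∀ t : ℝ, 0 ≤ t → 1 ≤ C j * t ^ m j → c' ≤ t := by
        refine ⟨min 1 (1 / C j), lt_min one_pos (by have := hC j; positivity), fun t ht h => ?_⟩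
        by_contra hcon
        push Not at hcon
        obtain ⟨h1, h2⟩ := lt_min_iff.1 hcon
        have h3 : t ^ m j ≤ t := by
          calc t ^ m j ≤ t ^ 1 := pow_le_pow_of_le_one ht h1.le (hm j)
            _ = t := pow_one t
        have h4 : C j * t < 1 := by
          have := hC j
          rw [lt_div_iff₀ this] at h2
          linarith
        have h5 := mul_le_mul_of_nonneg_left h3 (hC j).le
        linarith
      refine ⟨min c c', lt_min hc hc', fun i hi t ht hit => ?_⟩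
      rcases Finset.mem_insert.1 hi with rfl | hi
      · exact (min_le_right _ _).trans (h' t ht hit)
      · exact (min_le_left _ _).trans (h i hi t ht hit)
  obtain ⟨c, hc, hlow⟩ := hlow Finset.univ
  refine ⟨c, L, hc, hL, fun F hF hFX hA hne => ?_⟩
  obtain ⟨A, hA⟩ := hA
  have h0 : ∀ z, F z ≠ 0 := fun z h => hX.zero_notMem (h ▸ hFX z)
  have hconst : ∀ j z, (θ j).toFun (F z) (deriv F z) = (θ j).toFun (F 0) (deriv F 0) := fun j =>
    Pool.Agent.H15.V.liouville hF h0 (theta_entire hX hch (θ j) hF hFX) (hm j) (fun z => hbd j _ (hFX z) _ (tan_of_curve hF hFX z)) hA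
  obtain ⟨b, hb⟩ : ∃ b : Fin k → ℂ, b = fun j => (θ j).toFun (F 0) (deriv F 0) := ⟨_, rfl⟩
  have hconst' : ∀ j z, (θ j).toFun (F z) (deriv F z) = b j := fun j z => by rw [hb]; exact hconst j z
  -- not all constants are zero
  have hex : ∃ j, b j ≠ 0 := by
    by_contra hcon
    push Not at hcon
    apply hne
    intro z₀
    by_contra hz₀
    have hpos : 0 < fs (F z₀) (deriv F z₀) := lt_of_le_of_ne (fs_nonneg' _ _) (Ne.symm hz₀)
    obtain ⟨a, ha⟩ : ∃ a : ℝ, a = (L + 1) / fs (F z₀) (deriv F z₀) := ⟨_, rfl⟩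
    have ha0 : 0 < a := by rw [ha]; positivity
    have h1 := hlip (fun z => F ((a : ℂ) * z)) (hF.comp (differentiable_id.const_mul _)) (fun z => hFX _) (fun j z => by
      rw [theta_scale (θ j) hF hFX, hconst', hcon j, mul_zero, norm_zero]
      exact zero_le_one) (z₀ / a)
    have h2 : ((a : ℂ) * (z₀ / a)) = z₀ := by
      have : (a : ℂ) ≠ 0 := by exact_mod_cast ha0.ne'
      field_simp
    rw [deriv_scale hF, h2, fs_smul_right, Complex.norm_real, Real.norm_of_nonneg ha0.le, ha, div_mul_cancel₀ _ hpos.ne'] at h1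
    linarith
  -- the normalisation
  obtain ⟨j₀, -, hj₀⟩ := Finset.exists_max_image Finset.univ (fun j => ‖b j‖ ^ ((m j : ℝ)⁻¹)) ⟨hex.choose, Finset.mem_univ _⟩
  obtain ⟨t, ht⟩ : ∃ t : ℝ, t = ‖b j₀‖ ^ ((m j₀ : ℝ)⁻¹) := ⟨_, rfl⟩
  have hmj : ∀ j, ((m j : ℕ) : ℝ) ≠ 0 := fun j => by
    have := hm j
    exact_mod_cast (by omega : m j ≠ 0)
  have hpow : ∀ j, (‖b j‖ ^ ((m j : ℝ)⁻¹)) ^ m j = ‖b j‖ := fun j => by
    rw [← Real.rpow_natCast, ← Real.rpow_mul (norm_nonneg _), inv_mul_cancel₀ (hmj j), Real.rpow_one]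
  have ht0 : 0 < t := by
    obtain ⟨j, hj⟩ := hex
    have h1 := hj₀ j (Finset.mem_univ _)
    rw [ht]
    exact lt_of_lt_of_le (Real.rpow_pos_of_pos (norm_pos_iff.2 hj) _) h1
  have hle : ∀ j, ‖b j‖ ≤ t ^ m j := fun j => by
    rw [← hpow j]
    refine pow_le_pow_left₀ (Real.rpow_nonneg (norm_nonneg _) _) ?_ _
    rw [ht]
    exact hj₀ j (Finset.mem_univ _)
  have heq : ‖b j₀‖ = t ^ m j₀ := by rw [ht, hpow]
  have ha : (((t⁻¹ : ℝ) : ℂ)) ≠ 0 := by
    exact_mod_cast (inv_pos.2 ht0).ne'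
  have hna : ‖(((t⁻¹ : ℝ) : ℂ))‖ = t⁻¹ := by
    rw [Complex.norm_real, Real.norm_of_nonneg (inv_pos.2 ht0).le]
  have hd : Differentiable ℂ fun z => F (((t⁻¹ : ℝ) : ℂ) * z) := hF.comp (differentiable_id.const_mul _)
  have hnorm : ∀ j z, ‖(θ j).toFun (F (((t⁻¹ : ℝ) : ℂ) * z)) (deriv (fun z => F (((t⁻¹ : ℝ) : ℂ) * z)) z)‖ = t⁻¹ ^ m j * ‖b j‖ := fun j z => by
    rw [theta_scale (θ j) hF hFX, hconst', norm_mul, norm_pow, hna]
  refine ⟨((t⁻¹ : ℝ) : ℂ), ha, hd, fun z => hFX _, fun z => ⟨?_, ?_⟩⟩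
  · refine hlow j₀ (Finset.mem_univ _) _ (fs_nonneg' _ _) ?_
    refine le_trans ?_ (hbd j₀ _ (hFX _) _ (tan_of_curve hd (fun z => hFX _) z))
    rw [hnorm, heq, inv_pow, inv_mul_cancel₀ (by positivity)]
  · refine hlip _ hd (fun z => hFX _) (fun j z => ?_) z
    rw [hnorm, inv_pow, inv_mul_le_iff₀ (by positivity), mul_one]
    exact hle j

/-- a curve with derivative zero is constant -/
theorem pr_const {F : ℂ → EN N} (hF : Differentiable ℂ F) (h0 : ∀ z, F z ≠ 0) (h : ∀ z, fs (F z) (deriv F z) = 0) (z w : ℂ) :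
    pr (F z) = pr (F w) := by
  have h1 := Pool.Agent.H62.EF.pr_lipschitz isOpen_univ convex_univ hF.differentiableOn (fun z _ => h0 z) (L := 0)
    (fun z _ => (h z).le) z (Set.mem_univ _) w (Set.mem_univ _)
  rw [mul_zero, zero_mul] at h1
  exact dist_le_zero.1 h1

end Pool.Agent.H14.V
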