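import Pool.Agent.H14.V.MainV

/-!
# V FourV: the four properties
-/

set_option autoImplicit false

open Topology Filter MvPolynomial Metric

noncomputable section

namespace Pool.Agent.H14.V

open Pool.Agent.H17 (PN VanishesAt HolomorphicInto ZariskiClosedIn puncturedDisc)
open Pool.Agent.H62.FC (Homog)
open Pool.Agent.H17BP (Surface IsForm)
open Pool.Agent.H17LG.Variety (FunField IsLogGeneralType)
open Pool.Agent.H13.SM (conTan cone)
open Pool.Agent.H36.BP (EN fs wd isCone_transport)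
open Pool.Agent.H14.PP (IsCone Chart Form)
open Pool.Agent.H13.OT (OrderTwo)
open Pool.Agent.H14.KB (KobayashiHyperbolicModulo)
open Pool.Agent.H17EF (projVar zariskiClosure coneE LE GT prP prP_injective mk_symm mk_mem_projVar)
open Pool.Agent.H62.EF (MN pr Charts)
open Pool.Agent.H92.TH (SymDiff NoTangentBrody)
open Pool.Agent.H5.BD (BC Equi evp)

variable {N : ℕ} {P : Ideal (MvPolynomial (Fin (N + 1)) ℂ)}

/-- the theorem on proper surfaces, for projective surfaces -/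
theorem four_of_brody [P.IsPrime] {z : Fin 2 → FunField P} (hP : Homog P) (hz : IsTranscendenceBasis ℂ z)
    (hsm : ∀ y : Fin (N + 1) → ℂ, y ≠ 0 → (∀ Q ∈ P, eval y Q = 0) → Module.finrank ℂ (conTan P y) ≤ 3) (hgt : GT P 2)
    {Ξ : Set (PN N)} (hcl : ZariskiClosedIn (projVar P) Ξ) (hpr : Ξ ≠ projVar P)
    (hbr : ∀ f : ℂ → PN N, HolomorphicInto f Set.univ → OrderTwo f → (∀ z, f z ∈ projVar P) → (∃ z w, f z ≠ f w) →
      ∀ z, f z ∈ Ξ) :
    (∀ f : ℂ → PN N, HolomorphicInto f Set.univ → (∀ z, f z ∈ projVar P) → (∃ z w, f z ≠ f w) → ∀ z, f z ∈ Ξ) ∧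
    (∀ f : ℂ → PN N, HolomorphicInto f puncturedDisc → (∀ z ∈ puncturedDisc, f z ∈ projVar P) →
      (∃ z ∈ puncturedDisc, f z ∉ Ξ) →
      ∃ g : ℂ → PN N, HolomorphicInto g (Metric.ball 0 1) ∧ ∀ z ∈ puncturedDisc, g z = f z) ∧
    (∀ (Q : Ideal (MvPolynomial (Fin (N + 1)) ℂ)) [Q.IsPrime], Homog Q → P ≤ Q → ¬ projVar Q ⊆ Ξ →
      ∀ k, 1 ≤ k → (∃ z : Fin k → FunField Q, IsTranscendenceBasis ℂ z) → GT Q k) ∧
    ∃ (Q : MvPolynomial (Fin (N + 1)) ℂ) (D : ℕ), Q.IsHomogeneous D ∧ (∃ x ∈ projVar P, ¬ VanishesAt Q x) ∧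
      (∀ x ∈ Ξ, VanishesAt Q x) ∧ KobayashiHyperbolicModulo (projVar P) Q D := by
  have hlv := Pool.Agent.H17EF.locVar_one P
  have hproper : Pool.Agent.H62.SA.IsProperMap P (fun _ : Fin 1 => (1 : MvPolynomial (Fin (N + 1)) ℂ))
      (fun _ (_ : Fin (0 + 1)) => 1) (fun _ => 0) := by
    refine ⟨fun _ _ => isHomogeneous_one _ _, fun _ => rfl, fun _ _ _ => ?_, fun x _ => ⟨0, 0, ?_⟩⟩
    · rw [mul_one, sub_self]
      exact P.zero_mem
    · unfold VanishesAt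
      simp
  have hgt' : IsLogGeneralType (K := FunField P) (k := 2)
      (Pool.Agent.H62.SA.OnBd P (fun _ : Fin 1 => (1 : MvPolynomial (Fin (N + 1)) ℂ))) := by
    rw [Pool.Agent.H17EF.onBd_one]
    exact hgt
  have hmain := Pool.Agent.H62.SA.proper_main (G := fun _ : Fin 1 => (1 : MvPolynomial (Fin (N + 1)) ℂ)) hP hz hsm hproper hgt'
    (Ξ := Ξ) (by rw [hlv]; exact hcl) (by rw [hlv]; exact hpr) (by rw [hlv]; exact hbr)
  rw [hlv] at hmain
  obtain ⟨hbrody, hpicard, hkob⟩ := hmain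
  refine ⟨hbrody, hpicard, ?_, hkob⟩
  intro Q _ hQ hPQ hsub k hk hz'
  have h1 := Pool.Agent.H13.CV.strongly_of_brodyL P hP ⟨z, hz⟩ (G := fun _ : Fin 1 => (1 : MvPolynomial (Fin (N + 1)) ℂ))
    (fun _ => ⟨0, isHomogeneous_one _ _⟩) (Ξ := Ξ) (by rw [hlv]; exact hcl) hgt' (by rw [hlv]; exact hbrody) Q hQ hPQ
    (by rw [Pool.Agent.H17EF.locVar_one]; exact hsub) k hk hz'
  rw [Pool.Agent.H17EF.onBd_one] at h1
  exact h1

/-- the union of the Zariski closures of finitely many degenerate curves is a proper closed subset -/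
theorem closed_union_closure [P.IsPrime] {z : Fin 2 → FunField P} (hP : Homog P) (hz : IsTranscendenceBasis ℂ z)
    {T : Set (ℂ → PN N)} (hT : T.Finite) (hTX : ∀ g ∈ T, ∀ z, g z ∈ projVar P) (hTd : ∀ g ∈ T, Degenerate P g) :
    ZariskiClosedIn (projVar P) (⋃ g ∈ T, zariskiClosure g) ∧ (⋃ g ∈ T, zariskiClosure g) ≠ projVar P := by
  refine ⟨Pool.Agent.H17EF.closed_biUnion hT fun g hg => Pool.Agent.H17EF.closed_zariskiClosure (hTX g hg), fun heq => ?_⟩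
  have hX : ∃ i, (X i : MvPolynomial (Fin (N + 1)) ℂ) ∉ P := Pool.Agent.H62.FC.exists_X_notMem (r := 2) (by norm_num) ⟨z, hz⟩
  obtain ⟨R, n, hR, hRP, hRU⟩ := Pool.Agent.H17EF.exists_prod (P := P) hT (A := fun f => zariskiClosure f) (by
    intro f hf
    obtain ⟨Q, d, hQ, hQP, hQf⟩ := hTd f hf
    exact ⟨Q, d, hQ, hQP, fun x hx => hx Q d hQ hQf⟩)
  obtain ⟨x, hx, hxR⟩ := Pool.Agent.H17EF.exists_point hP hX hRP hR
  apply hxR
  rw [← heq] at hx
  exact hRU x hx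

/-- the set of the curves of a finite set of lifts -/
theorem finite_of_lifts (T : Finset (ℂ → EN N)) : {f : ℂ → PN N | ∃ G ∈ T, IsLift G f}.Finite := by
  refine Set.Finite.of_finite_image (f := fun (f : ℂ → PN N) z => prP (f z)) ((T.finite_toSet.image (fun G z => pr (G z))).subset ?_) ?_
  · rintro _ ⟨f, ⟨G, hG, hGf⟩, rfl⟩
    refine ⟨G, hG, ?_⟩
    funext z
    exact (hGf.prP z).symm
  · intro f _ g _ h
    funext z
    exact prP_injective (congrFun h z)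

/-- from the equivalence of lifts to the equivalence of curves -/
theorem eq_of_equi {F G : ℂ → EN N} {f g : ℂ → PN N} (hF : IsLift F f) (hG : IsLift G g) (h : Equi F G) :
    ∃ a b : ℂ, a ≠ 0 ∧ ∀ z, f z = g (a * z + b) := by
  obtain ⟨a, b, ha, h⟩ := h
  refine ⟨a, b, ha, fun z => prP_injective ?_⟩
  rw [hF.prP, hG.prP]
  exact h z

/-- a lift of a curve in `BC` -/
theorem exists_curve (hP : Homog P) {c L : ℝ} {G : ℂ → EN N} (hG : G ∈ BC (coneE P) c L) :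
    ∃ g, IsLift G g ∧ ∀ z, g z ∈ projVar P := by
  have h0 : ∀ z, (G z).ofLp ≠ 0 := fun z => (hG.2.1 z).1
  refine ⟨_, isLift_mk hG.1 h0, fun z => ?_⟩
  exact ((isLift_mk hG.1 h0).mem_iff hP z).2 (hG.2.1 z)

section

variable [P.IsPrime] {z : Fin 2 → FunField P}

/-- **Curves with bounded distortion.** -/
theorem partA (hP : Homog P) (hz : IsTranscendenceBasis ℂ z)
    (hsm : ∀ y : Fin (N + 1) → ℂ, y ≠ 0 → (∀ Q ∈ P, eval y Q = 0) → Module.finrank ℂ (conTan P y) ≤ 3) (hgt : GT P 2)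
    {c : ℝ} (hc : 0 < c) (L : ℝ) :
    (∀ f ∈ boundedDistortion (projVar P) c L, DoublyPeriodic f ∧ Degenerate P f) ∧
    ∃ T : Set (ℂ → PN N), T.Finite ∧ T ⊆ boundedDistortion (projVar P) c L ∧
      ∀ f ∈ boundedDistortion (projVar P) c L, ∃ g ∈ T, ∃ a b : ℂ, a ≠ 0 ∧ ∀ z, f z = g (a * z + b) := by
  obtain ⟨h1, T, hT, h2⟩ := bounded hP hz hsm hgt hc L
  constructor
  · rintro f ⟨hfX, F, hF, hFb⟩
    have h3 := doublyPeriodic_of hF (h1 F (mem_BC hP hF hfX hFb))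
    exact ⟨h3, degenerate_of hP hz hF hfX (fun z => (hFb z).2) h3⟩
  · refine ⟨{f | ∃ G ∈ T, IsLift G f}, finite_of_lifts T, ?_, ?_⟩
    · rintro f ⟨G, hG, hGf⟩
      have h3 := hT G hG
      exact ⟨fun z => (hGf.mem_iff hP z).2 (h3.2.1 z), G, hGf, h3.2.2⟩
    · rintro f ⟨hfX, F, hF, hFb⟩
      obtain ⟨G, hG, hFG⟩ := h2 F (mem_BC hP hF hfX hFb)
      obtain ⟨g, hg, hgX⟩ := exists_curve hP (hT G hG)
      exact ⟨g, ⟨G, hG, hg⟩, eq_of_equi hF hg hFG⟩

/-- **Brody curves and symmetric differentials.** -/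
theorem partB (hP : Homog P) (hz : IsTranscendenceBasis ℂ z)
    (hsm : ∀ y : Fin (N + 1) → ℂ, y ≠ 0 → (∀ Q ∈ P, eval y Q = 0) → Module.finrank ℂ (conTan P y) ≤ 3) (hgt : GT P 2)
    {m : ℕ} (hm : 1 ≤ m) (θ : SymDiff (coneE P) m) {L : ℝ} {f : ℂ → PN N} (hf : f ∈ brodyCurves (projVar P) L) :
    TangentTo θ f ∨ (DoublyPeriodic f ∧ Degenerate P f) := by
  have hS : Surface (cone P) := Pool.Agent.H13.SM.surface_cone hP hz fun y hy => hsm y hy.1 hy.2
  have hX : IsCone (coneE P) := isCone_transport (LE N) hS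
  have hch : Charts (coneE P) := Pool.Agent.H17EF.charts hS
  obtain ⟨hfX, F, hF, hFL⟩ := hf
  have hFX : ∀ z, F z ∈ coneE P := fun z => (hF.mem_iff hP z).1 (hfX z)
  have hconst := brody_const hX hch θ hF.1 hFX hFL
  by_cases hb : θ.toFun (F 0) (deriv F 0) = 0
  · exact Or.inl ⟨F, hF, fun z => by rw [hconst z 0, hb]⟩
  · right
    obtain ⟨c, hc, hlow⟩ := exists_lower hX hch hm θ hb
    exact (partA hP hz hsm hgt hc L).1 f ⟨hfX, F, hF, fun z => ⟨hlow F hF.1 hFX (fun z => hconst z 0) z, hFL z⟩⟩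

/-- **Surfaces with sufficiently many symmetric differentials.** -/
theorem partC (hP : Homog P) (hz : IsTranscendenceBasis ℂ z)
    (hsm : ∀ y : Fin (N + 1) → ℂ, y ≠ 0 → (∀ Q ∈ P, eval y Q = 0) → Module.finrank ℂ (conTan P y) ≤ 3)
    {k : ℕ} {m : Fin k → ℕ} (hm : ∀ j, 1 ≤ m j) (θ : ∀ j, SymDiff (coneE P) (m j))
    (hNT : ∀ f ∈ brodyCurves (projVar P) 1, (∀ j, TangentTo (θ j) f) → ∀ z w, f z = f w) :
    ∃ c L : ℝ, 0 < c ∧ ∀ f : ℂ → PN N, HolomorphicInto f Set.univ → OrderTwo f → (∀ z, f z ∈ projVar P) →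
      (∃ z w, f z ≠ f w) → ∃ a : ℂ, a ≠ 0 ∧ (fun z => f (a * z)) ∈ boundedDistortion (projVar P) c L := by
  have hS : Surface (cone P) := Pool.Agent.H13.SM.surface_cone hP hz fun y hy => hsm y hy.1 hy.2
  have hX : IsCone (coneE P) := isCone_transport (LE N) hS
  have hch : Charts (coneE P) := Pool.Agent.H17EF.charts hS
  have hNT' : NoTangentBrody θ := by
    intro F hF hFX hF1 hθ z w
    have h0 : ∀ z, (F z).ofLp ≠ 0 := fun z => (hFX z).1
    have hl := isLift_mk hF h0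
    have h1 := hNT _ ⟨fun z => (hl.mem_iff hP z).2 (hFX z), F, hl, hF1⟩ (fun j => ⟨F, hl, hθ j⟩) z w
    rw [Projectivization.mk_eq_mk_iff'] at h1
    obtain ⟨a, ha⟩ := h1
    exact ⟨a, WithLp.ofLp_injective 2 ha.symm⟩
  obtain ⟨c, L, hc, hL, h⟩ := exists_scale hX hch hm θ hNT'
  refine ⟨c, L, hc, fun f hf hfo hfX hfn => ?_⟩
  obtain ⟨F₀, A, hF₀, hFf, hA⟩ := hfo
  obtain ⟨A', hA'⟩ := average_toLp hF₀ (fun z => (hFf z).1) hA
  have hl : IsLift (fun z => (WithLp.toLp 2 (F₀ z) : EN N)) f := by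
    refine ⟨?_, fun z => hFf z⟩
    exact (LE N).differentiable.comp hF₀
  obtain ⟨a, ha, hFa⟩ := h _ hl.1 (fun z => (hl.mem_iff hP z).1 (hfX z)) ⟨A', hA'⟩ (fun h0 => by
    obtain ⟨z, w, hzw⟩ := hfn
    apply hzw
    apply prP_injective
    rw [hl.prP, hl.prP]
    exact pr_const hl.1 (fun z => hl.ne_zero z) h0 z w)
  have hl' : IsLift (fun z => (WithLp.toLp 2 (F₀ (a * z)) : EN N)) fun z => f (a * z) := by
    have := hl.comp a 0
    simpa using this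
  exact ⟨a, ha, fun z => hfX _, _, hl', hFa.2.2⟩

end

end Pool.Agent.H14.V
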